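import Mathlib

namespace Pool.Agent.Results.MP_924496_co.Full

open SimpleGraph

variable {V : Type}

/-- A cover of `G` whose lists are the copies `{v} × α` of `α`: `M u i v j` says that
`(u, i)` and `(v, j)` are joined by an edge of the matching belonging to the edge `uv`. -/
structure Cover (G : SimpleGraph V) (α : Type) where
  M : V → α → V → α → Prop
  symm : ∀ u i v j, M u i v j → M v j u i
  adj : ∀ u i v j, M u i v j → G.Adj u v
  matching : ∀ u i v j j', M u i v j → M u i v j' → j = j'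

/-- a colouring for the cover: one element from each list, no two of them joined -/
def IsCol {G : SimpleGraph V} {α : Type} (C : Cover G α) (c : V → α) : Prop :=
  ∀ u v, ¬ C.M u (c u) v (c v)

/-- the DP-chromatic number -/
noncomputable def chi (G : SimpleGraph V) : ℕ :=
  sInf {m | ∀ C : Cover G (Fin m), ∃ c, IsCol C c}

/-- the DP colour function -/
noncomputable def P (G : SimpleGraph V) (m : ℕ) : ℕ :=
  sInf {n | ∃ C : Cover G (Fin m), n = Nat.card {c // IsCol C c}}

/-- `f(G, k)` -/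
noncomputable def f (G : SimpleGraph V) (k : ℕ) : ℕ :=
  sInf {t | chi (G □ completeBipartiteGraph (Fin k) (Fin t)) = chi G + k}

def triv (G : SimpleGraph V) (α : Type) : Cover G α :=
  ⟨fun _ _ _ _ => False, fun _ _ _ _ h => h, fun _ _ _ _ h => h.elim, fun _ _ _ _ _ h => h.elim⟩

theorem sub {G : SimpleGraph V} {m : ℕ} (h : ∀ C : Cover G (Fin m), ∃ c, IsCol C c) {α : Type}
    (C : Cover G α) (e : V → Fin m → α) (he : ∀ v, Function.Injective (e v)) :
    ∃ c, IsCol C c ∧ ∀ v, ∃ i, c v = e v i := by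
  obtain ⟨c, hc⟩ := h ⟨fun u i v j => C.M u (e u i) v (e v j), fun u i v j => C.symm _ _ _ _,
    fun u i v j => C.adj _ _ _ _, fun u i v j j' h1 h2 => he v (C.matching _ _ _ _ _ h1 h2)⟩
  exact ⟨fun v => e v (c v), hc, fun v => ⟨c v, rfl⟩⟩

theorem forb {W ι α : Type} [Fintype α] {G : SimpleGraph W} (C : Cover G α) (s : Finset ι)
    (w : ι → W) (a : ι → α) (v : W) :
    ∃ F : Finset α, F.card ≤ s.card ∧ ∀ x ∈ s, ∀ j, C.M (w x) (a x) v j → j ∈ F := by
  classical
  induction s using Finset.induction_on with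
  | empty => exact ⟨∅, by simp, by simp⟩
  | insert x s hx ih =>
    obtain ⟨F, h1, h2⟩ := ih
    rw [Finset.card_insert_of_notMem hx]
    by_cases h : ∃ j, C.M (w x) (a x) v j
    · obtain ⟨j, hj⟩ := h
      refine ⟨insert j F, (Finset.card_insert_le _ _).trans (by omega), ?_⟩
      intro y hy j' hj'
      rcases Finset.mem_insert.1 hy with rfl | hy
      · rw [C.matching _ _ _ _ _ hj' hj]; exact Finset.mem_insert_self _ _
      · exact Finset.mem_insert_of_mem (h2 y hy j' hj')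
    · refine ⟨F, by omega, ?_⟩
      intro y hy j' hj'
      rcases Finset.mem_insert.1 hy with rfl | hy
      · exact absurd ⟨j', hj'⟩ h
      · exact h2 y hy j' hj'

theorem greedy [Fintype V] (G : SimpleGraph V) (C : Cover G (Fin (Fintype.card V + 1))) :
    ∃ c, IsCol C c := by
  classical
  have : ∀ s : Finset V, ∃ c : V → Fin (Fintype.card V + 1),
      ∀ u ∈ s, ∀ v ∈ s, ¬ C.M u (c u) v (c v) := by
    intro s
    induction s using Finset.induction_on with
    | empty => exact ⟨fun _ => 0, by simp⟩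
    | insert x s hx ih =>
      obtain ⟨c, hc⟩ := ih
      obtain ⟨F, h1, h2⟩ := forb C s id c x
      have hlt : F.card < (Finset.univ : Finset (Fin (Fintype.card V + 1))).card := by
        have := s.card_le_univ
        simp only [Finset.card_univ, Fintype.card_fin]
        omega
      obtain ⟨j, -, hj⟩ := Finset.exists_mem_notMem_of_card_lt_card hlt
      have hne : ∀ u ∈ s, u ≠ x := fun u hu e => hx (e ▸ hu)
      refine ⟨Function.update c x j, ?_⟩
      intro u hu v hv hM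
      replace hu := Finset.mem_insert.1 hu
      replace hv := Finset.mem_insert.1 hv
      rcases hu with rfl | hu <;> rcases hv with rfl | hv
      · exact G.irrefl (C.adj _ _ _ _ hM)
      · rw [Function.update_self, Function.update_of_ne (hne v hv)] at hM
        exact hj (h2 v hv j (C.symm _ _ _ _ hM))
      · rw [Function.update_self, Function.update_of_ne (hne u hu)] at hM
        exact hj (h2 u hu j hM)
      · rw [Function.update_of_ne (hne u hu), Function.update_of_ne (hne v hv)] at hM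
        exact hc u hu v hv hM
  obtain ⟨c, hc⟩ := this Finset.univ
  exact ⟨c, fun u v => hc u (Finset.mem_univ _) v (Finset.mem_univ _)⟩

theorem chi_mem [Fintype V] (G : SimpleGraph V) : ∀ C : Cover G (Fin (chi G)), ∃ c, IsCol C c :=
  Nat.sInf_mem (s := {m | ∀ C : Cover G (Fin m), ∃ c, IsCol C c}) ⟨_, greedy G⟩

/-- the part of a cover of `G □ K` lying over one copy of `G` -/
def layer {W α : Type} {G : SimpleGraph V} {K : SimpleGraph W} (D : Cover (G □ K) α) (s : W) :
    Cover G α where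
  M u i v j := D.M (u, s) i (v, s) j
  symm _ _ _ _ h := D.symm _ _ _ _ h
  adj u i v j h := by
    rcases boxProd_adj.1 (D.adj _ _ _ _ h) with h | h
    · exact h.1
    · exact absurd h.1 K.irrefl
  matching _ _ _ _ _ h h' := D.matching _ _ _ _ _ h h'

theorem upper {G : SimpleGraph V} {m t : ℕ} (h : ∀ C : Cover G (Fin m), ∃ c, IsCol C c)
    (D : Cover (G □ completeBipartiteGraph (Fin 2) (Fin t)) (Fin (m + 2))) : ∃ c, IsCol D c := by
  classical
  have h1 : ∀ x : Fin 2, ∃ c, IsCol (layer D (Sum.inl x)) c := fun x => by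
    obtain ⟨c, hc, -⟩ := sub h (layer D (Sum.inl x)) (fun _ => Fin.castAdd 2)
      (fun _ => Fin.castAdd_injective _ _)
    exact ⟨c, hc⟩
  choose a ha using h1
  have h2 : ∀ (y : Fin t) (v : V), ∃ e : Fin m → Fin (m + 2), Function.Injective e ∧
      ∀ i x, ¬ D.M (v, Sum.inl x) (a x v) (v, Sum.inr y) (e i) := by
    intro y v
    obtain ⟨F, hF, hF2⟩ := forb D (Finset.univ : Finset (Fin 2)) (fun x => (v, Sum.inl x))
      (fun x => a x v) (v, Sum.inr y)
    have hc : m ≤ Fᶜ.card := by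
      rw [Finset.card_compl]
      simp only [Finset.card_univ, Fintype.card_fin] at hF ⊢
      omega
    obtain ⟨S, hS, hcard⟩ := Finset.exists_subset_card_eq hc
    refine ⟨fun i => S.orderEmbOfFin hcard i, (S.orderEmbOfFin hcard).injective, ?_⟩
    intro i x hM
    exact Finset.mem_compl.1 (hS (S.orderEmbOfFin_mem hcard i)) (hF2 x (Finset.mem_univ _) _ hM)
  choose e he1 he2 using h2
  have h3 : ∀ y : Fin t, ∃ c, IsCol (layer D (Sum.inr y)) c ∧ ∀ v, ∃ i, c v = e y v i :=
    fun y => sub h _ (e y) (he1 y)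
  choose b hb1 hb2 using h3
  refine ⟨fun p => Sum.elim (fun x => a x p.1) (fun y => b y p.1) p.2, ?_⟩
  rintro ⟨u, s⟩ ⟨v, s'⟩ hM
  rcases boxProd_adj.1 (D.adj _ _ _ _ hM) with h | h
  · obtain ⟨-, h⟩ := h
    simp only at h
    subst h
    rcases s with x | y
    · exact ha x u v hM
    · exact hb1 y u v hM
  · obtain ⟨h, h'⟩ := h
    simp only at h h'
    subst h'
    rcases s with x | y <;> rcases s' with x' | y'
    · simp at h
    · obtain ⟨i, hi⟩ := hb2 y' u
      simp only [Sum.elim_inl, Sum.elim_inr, hi] at hM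
      exact he2 y' u i x hM
    · obtain ⟨i, hi⟩ := hb2 y u
      simp only [Sum.elim_inl, Sum.elim_inr, hi] at hM
      exact he2 y u i x' (D.symm _ _ _ _ hM)
    · simp at h

theorem gadget (q : ℕ) (i j : Fin (q + 2)) : ∃ σ : Fin 2 → Equiv.Perm (Fin (q + 2)),
    (∀ z, z ≠ σ 0 i → z ≠ σ 1 j → z.val < q) ∧ (∀ z, z ≠ σ 0 j → z ≠ σ 1 i → z.val < q) := by
  have key : ∀ z : Fin (q + 2), z ≠ ⟨q, by omega⟩ → z ≠ ⟨q + 1, by omega⟩ → z.val < q := by
    intro z h1 h2
    have := z.2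
    simp only [ne_eq, Fin.ext_iff] at h1 h2
    omega
  by_cases h : i = j
  · subst h
    refine ⟨![Equiv.swap i ⟨q, by omega⟩, Equiv.swap i ⟨q + 1, by omega⟩], ?_, ?_⟩ <;>
    · intro z h1 h2
      apply key z
      · simpa using h1
      · simpa using h2
  · set a : Fin (q + 2) := ⟨q, by omega⟩
    set b : Fin (q + 2) := ⟨q + 1, by omega⟩
    have hab : a ≠ b := by simp [a, b]
    have h1 : a ≠ Equiv.swap i a j := by
      intro e
      apply h
      apply (Equiv.swap i a).injective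
      rw [← e]; simp
    have e1 : (Equiv.swap (Equiv.swap i a j) b * Equiv.swap i a) i = a := by
      rw [Equiv.Perm.mul_apply, Equiv.swap_apply_left, Equiv.swap_apply_of_ne_of_ne h1 hab]
    have e2 : (Equiv.swap (Equiv.swap i a j) b * Equiv.swap i a) j = b := by
      rw [Equiv.Perm.mul_apply, Equiv.swap_apply_left]
    refine ⟨fun _ => Equiv.swap (Equiv.swap i a j) b * Equiv.swap i a, ?_, ?_⟩
    · intro z z1 z2
      rw [e1] at z1; rw [e2] at z2
      exact key z z1 z2
    · intro z z1 z2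
      rw [e2] at z1; rw [e1] at z2
      exact key z z2 z1

def bad {G : SimpleGraph V} {q t : ℕ} (C : Cover G (Fin (q + 2))) (B : Cover G (Fin q))
    (σ : Fin t → V → Fin 2 → Equiv.Perm (Fin (q + 2))) :
    Cover (G □ completeBipartiteGraph (Fin 2) (Fin t)) (Fin (q + 2)) where
  M p i p' j := match p.2, p'.2 with
    | Sum.inl x, Sum.inl x' => x = x' ∧ C.M p.1 i p'.1 j
    | Sum.inr y, Sum.inr y' => y = y' ∧
        ∃ i' j', i = Fin.castAdd 2 i' ∧ j = Fin.castAdd 2 j' ∧ B.M p.1 i' p'.1 j'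
    | Sum.inl x, Sum.inr y => p.1 = p'.1 ∧ j = σ y p.1 x i
    | Sum.inr y, Sum.inl x => p'.1 = p.1 ∧ i = σ y p'.1 x j
  symm := by
    rintro ⟨u, x | y⟩ i ⟨v, x' | y'⟩ j h
    · exact ⟨h.1.symm, C.symm _ _ _ _ h.2⟩
    · exact h
    · exact h
    · obtain ⟨h1, i', j', h2, h3, h4⟩ := h
      exact ⟨h1.symm, j', i', h3, h2, B.symm _ _ _ _ h4⟩
  adj := by
    rintro ⟨u, x | y⟩ i ⟨v, x' | y'⟩ j h
    · exact boxProd_adj.2 (Or.inl ⟨C.adj _ _ _ _ h.2, congrArg Sum.inl h.1⟩)
    · exact boxProd_adj.2 (Or.inr ⟨by simp, h.1⟩)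
    · exact boxProd_adj.2 (Or.inr ⟨by simp, h.1.symm⟩)
    · obtain ⟨h1, i', j', h2, h3, h4⟩ := h
      exact boxProd_adj.2 (Or.inl ⟨B.adj _ _ _ _ h4, congrArg Sum.inr h1⟩)
  matching := by
    rintro ⟨u, x | y⟩ i ⟨v, x' | y'⟩ j j' h h'
    · exact C.matching _ _ _ _ _ h.2 h'.2
    · exact h.2.trans h'.2.symm
    · exact (σ y v x').injective (h.2.symm.trans h'.2)
    · obtain ⟨-, i1, j1, h2, h3, h4⟩ := h
      obtain ⟨-, i2, j2, h5, h6, h7⟩ := h'
      have : i1 = i2 := Fin.castAdd_injective _ _ (h2.symm.trans h5)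
      subst this
      rw [h3, h6, B.matching _ _ _ _ _ h4 h7]

theorem main [Fintype V] [Nonempty V] (G : SimpleGraph V) :
    ∃ t, t < P G (chi G + 2 - 1) ^ 2 ∧
      chi (G □ completeBipartiteGraph (Fin 2) (Fin t)) = chi G + 2 := by
  classical
  have hmem := chi_mem G
  obtain ⟨q, hq⟩ : ∃ q, chi G = q + 1 := by
    apply Nat.exists_eq_succ_of_ne_zero
    intro h0
    obtain ⟨c, -⟩ := hmem (triv G _)
    have := (c (Classical.arbitrary V)).2
    omega
  have hB : ¬ ∀ C : Cover G (Fin q), ∃ c, IsCol C c :=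
    Nat.notMem_of_lt_sInf (s := {m | ∀ C : Cover G (Fin m), ∃ c, IsCol C c})
      (by show q < chi G; omega)
  push Not at hB
  obtain ⟨B, hB⟩ := hB
  rw [hq] at hmem ⊢
  obtain ⟨C, hC⟩ : ∃ C : Cover G (Fin (q + 2)), P G (q + 2) = Nat.card {c // IsCol C c} :=
    Nat.sInf_mem (s := {n | ∃ C : Cover G (Fin (q + 2)), n = Nat.card {c // IsCol C c}})
      ⟨_, triv G _, rfl⟩
  obtain ⟨I, hI, -⟩ := sub hmem C (fun _ => Fin.castSucc) (fun _ => Fin.castSucc_injective _)
  obtain ⟨J, hJ, hIJ⟩ := sub hmem C (fun v => (I v).succAbove) (fun v => Fin.succAbove_right_injective)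
  have hne : (⟨I, hI⟩ : {c // IsCol C c}) ≠ ⟨J, hJ⟩ := by
    intro e
    have e1 : I = J := congrArg Subtype.val e
    obtain ⟨i, hi⟩ := hIJ (Classical.arbitrary V)
    rw [← e1] at hi
    exact Fin.succAbove_ne _ _ hi.symm
  let Y := {x : {c // IsCol C c} × {c // IsCol C c} // x ≠ (⟨I, hI⟩, ⟨J, hJ⟩)}
  have hY : Fintype.card Y < P G (q + 2) ^ 2 := by
    rw [hC, Nat.card_eq_fintype_card, sq, ← Fintype.card_prod]
    exact Fintype.card_subtype_lt (x := (⟨I, hI⟩, ⟨J, hJ⟩)) (by simp)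
  refine ⟨Fintype.card Y, hY, ?_⟩
  let p : Fin (Fintype.card Y) ≃ Y := (Fintype.equivFin Y).symm
  choose σ hσ1 hσ2 using fun (y : Fin (Fintype.card Y)) (v : V) =>
    gadget q ((p y).1.1.1 v) ((p y).1.2.1 v)
  have nocol : ¬ ∃ c, IsCol (bad C B σ) c := by
    rintro ⟨c, hc⟩
    have c0 : ∀ x : Fin 2, IsCol C fun v => c (v, Sum.inl x) :=
      fun x u v hM => hc (u, Sum.inl x) (v, Sum.inl x) ⟨rfl, hM⟩
    have hne2 : ∀ y v x, c (v, Sum.inr y) ≠ σ y v x (c (v, Sum.inl x)) :=
      fun y v x e => hc (v, Sum.inl x) (v, Sum.inr y) ⟨rfl, e⟩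
    have : ∃ y, ∀ v, (c (v, Sum.inr y)).val < q := by
      by_cases h : ((⟨_, c0 0⟩, ⟨_, c0 1⟩) : {c // IsCol C c} × {c // IsCol C c}) =
          (⟨I, hI⟩, ⟨J, hJ⟩)
      · have h' : ((⟨_, c0 1⟩, ⟨_, c0 0⟩) : {c // IsCol C c} × {c // IsCol C c}) ≠
            (⟨I, hI⟩, ⟨J, hJ⟩) := by
          intro e
          exact hne ((congrArg Prod.fst e).symm.trans (congrArg Prod.snd h))
        refine ⟨p.symm ⟨_, h'⟩, fun v => ?_⟩
        have := hσ2 (p.symm ⟨_, h'⟩) v
        simp only [Equiv.apply_symm_apply] at this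
        exact this _ (hne2 _ v 0) (hne2 _ v 1)
      · refine ⟨p.symm ⟨_, h⟩, fun v => ?_⟩
        have := hσ1 (p.symm ⟨_, h⟩) v
        simp only [Equiv.apply_symm_apply] at this
        exact this _ (hne2 _ v 0) (hne2 _ v 1)
    obtain ⟨y, hy⟩ := this
    apply hB fun v => ⟨_, hy v⟩
    intro u v hM
    exact hc (u, Sum.inr y) (v, Sum.inr y) ⟨rfl, _, _, rfl, rfl, hM⟩
  apply le_antisymm
  · exact Nat.sInf_le (s := {m | ∀ C : Cover _ (Fin m), ∃ c, IsCol C c}) (upper hmem)
  · by_contra hlt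
    apply nocol
    obtain ⟨c, hc, -⟩ := sub (chi_mem _) (bad C B σ) (fun _ => Fin.castLE (by omega))
      (fun _ => Fin.castLE_injective _)
    exact ⟨c, hc⟩

theorem result : ∀ (V : Type) [Fintype V] [Nonempty V] (G : SimpleGraph V),
    (∃ t, t < P G (chi G + 2 - 1) ^ 2 ∧
      chi (G □ completeBipartiteGraph (Fin 2) (Fin t)) = chi G + 2) ∧
    ∃ k, 1 ≤ k ∧ f G k < P G (chi G + k - 1) ^ k := by
  intro V _ _ G
  obtain ⟨t, h1, h2⟩ := main G
  refine ⟨⟨t, h1, h2⟩, 2, by omega, lt_of_le_of_lt ?_ h1⟩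
  exact Nat.sInf_le h2

end Pool.Agent.Results.MP_924496_co.Full
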